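import Pool.Agent.H37.CF.Basic

/-!
# Complete family: the orders of the groups
-/

set_option autoImplicit false

open NumberField
open scoped nonZeroDivisors

namespace Pool.Agent.H36.CF

open Pool.Agent.H31.CN Pool.Agent.H95.CF Pool.Agent.H28.RC Pool.Agent.H37.CF
open Pool.Agent.H91.CF (ch npt npD xit xiD pit piD TrQ NRe NVc RQ nn rr ww fmD Fu)
open Pool.Agent.H24.Cls (Quad)

/-- the number of classes as a product -/
theorem card_Hd (hHDC : T_HDC) (hCNU : T_CNU) (hNRT : T_NRT) (K : Type) [Field K]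
    [NumberField K] (D f : ℕ) (G : Type) [CommGroup G] (cl : Ideal (𝓞 K) → G) (hI : IQ K D)
    (hf : 1 ≤ f) (hG : RG K f G cl) (d : ℕ) (hd : d ∣ f) :
    (Nat.card (Hd K f cl d) : ℤ) = ∏ p ∈ d.primeFactors,
      (if d.factorization p < f.factorization p then (p : ℤ) ^ d.factorization p
        else (p : ℤ) ^ (d.factorization p - 1) * (p - ch p D)) := by
  obtain ⟨Q, hQ⟩ := Pool.Agent.H24.Cls.exists_quad K hI.deg
  have hD : Q.t ^ 2 - 4 * Q.n = -(D : ℤ) := by
    rw [← hI.dis, ← hQ]
    rfl
  have h1 := hHDC K D f G cl Q d hI hf hG hd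
  have h2 := hCNU Q.t Q.n f d hf hd
  have h3 : (f.totient : ℤ) ≠ 0 := by
    have := Nat.totient_pos.2 hf
    omega
  have h4 : (Nat.card (Hd K f cl d) : ℤ) * f.totient = ((prs Q.t Q.n f d).card : ℤ) := by
    exact_mod_cast h1
  rw [h2, mul_comm] at h4
  have h5 := mul_left_cancel₀ h3 h4
  rw [h5]
  refine Finset.prod_congr rfl ?_
  intro p hp
  have h6 := hNRT Q.t Q.n D p (Nat.prime_of_mem_primeFactors hp) hD
  rw [h6]
  congr 2
  ring

theorem pf_GRP (hCLA : T_CLA) (hHDC : T_HDC) (hCNU : T_CNU) (hNRT : T_NRT) : T_GRP := by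
  intro K _ _ D f G _ cl hI hf hG
  have hcard := card_Hd hHDC hCNU hNRT K D f G cl hI hf hG
  refine ⟨?_, ?_⟩
  · obtain ⟨π, hsur, -, hker⟩ := hCLA K f G cl hf hG
    have h1 : Nat.card G = Nat.card (ClassGroup (𝓞 K)) * Nat.card π.ker := by
      rw [Subgroup.card_eq_card_quotient_mul_card_subgroup π.ker]
      congr 1
      exact Nat.card_congr (QuotientGroup.quotientKerEquivOfSurjective π hsur).toEquiv
    have h2 : Nat.card π.ker = Nat.card (Hd K f cl f) := by
      have h3 : ((π.ker : Subgroup G) : Set G) = Hd K f cl f := by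
        ext g
        exact (MonoidHom.mem_ker).trans (hker g)
      rw [← h3]
      rfl
    have h4 : Nat.card (ClassGroup (𝓞 K)) = classNumber K := by
      rw [classNumber, Nat.card_eq_fintype_card]
    rw [h1, h4, h2, Nat.cast_mul]
    congr 1
    have h5 : ((Nat.card (Hd K f cl f) : ℤ) : ℝ) = _ := congrArg (Int.cast : ℤ → ℝ)
      (hcard f dvd_rfl)
    rw [Int.cast_natCast] at h5
    rw [h5, xiD, Int.cast_prod]
    refine Finset.prod_congr rfl ?_
    intro p hp
    have hp1 := Nat.prime_of_mem_primeFactors hp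
    have hp2 := Nat.dvd_of_mem_primeFactors hp
    have hp0 : (p : ℝ) ≠ 0 := by exact_mod_cast hp1.ne_zero
    have hv : 1 ≤ f.factorization p :=
      (hp1.dvd_iff_one_le_factorization (by omega)).1 hp2
    rw [if_neg (lt_irrefl _), xit, if_pos hp2]
    obtain ⟨v, hv'⟩ : ∃ v, f.factorization p = v + 1 := ⟨f.factorization p - 1, by omega⟩
    rw [hv', Nat.add_sub_cancel]
    push_cast
    field_simp
    ring
  · intro d hd hsq
    rw [hcard d hd]
    refine Finset.prod_congr rfl ?_
    intro p hp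
    have hp1 := Nat.prime_of_mem_primeFactors hp
    have hp2 := Nat.dvd_of_mem_primeFactors hp
    have hd0 : d ≠ 0 := hsq.ne_zero
    have hfac : d.factorization p = 1 := by
      have h1 := (hp1.dvd_iff_one_le_factorization hd0).1 hp2
      have h2 := hsq.natFactorization_le_one p
      omega
    rw [hfac, npD, npt]
    have h3 : p ^ 2 ∣ f ↔ 1 < f.factorization p :=
      hp1.pow_dvd_iff_le_factorization (by omega)
    by_cases h : 1 < f.factorization p
    · rw [if_pos h, if_pos (h3.2 h), pow_one]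
    · rw [if_neg h, if_neg (fun h' => h (h3.1 h')), Nat.sub_self, pow_zero, one_mul]

end Pool.Agent.H36.CF
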