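import Pool.Agent.H37.CF.Basic

/-!
# Complete family: the number of the characters that do not vanish at `1/2`
-/

set_option autoImplicit false

open NumberField
open scoped nonZeroDivisors

namespace Pool.Agent.H36.CF

open Pool.Agent.H31.CN Pool.Agent.H95.CF Pool.Agent.H28.RC Pool.Agent.H37.CF
open Pool.Agent.H91.CF (ch npt npD xit xiD pit piD TrQ NRe NVc RQ nn rr ww fmD Fu)
open Pool.Agent.H24.Cls (Quad)

theorem finite_chars (G : Type) [CommGroup G] [Finite G] : Finite (G →* ℂˣ) :=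
  Finite.of_equiv G (CommGroup.monoidHom_mulEquiv_of_hasEnoughRootsOfUnity G ℂ).some.symm.toEquiv

theorem pf_WWB (hBIJ : T_BIJ) (hGRP : T_GRP) (hNPR : T_NPR) (hNVR : T_NVR) : T_WWB := by
  intro K _ _ D f G _ _ cl hI hF hf hG
  obtain ⟨e, he⟩ := hBIJ K D f G cl hI hf hG
  have h1 : Finite (G →* ℂˣ) := finite_chars G
  have h2 : Finite {φ : G →* ℂˣ // Prim K f cl φ} := Subtype.finite
  have h3 : Finite (RQ K f) := Finite.of_equiv _ e.symm
  have hfin : (RQ K f).Finite := Set.toFinite _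
  refine ⟨hfin, ?_, ?_⟩
  · have h4 : (nn K f : ℝ) = (Nat.card {φ : G →* ℂˣ // Prim K f cl φ} : ℝ) := by
      unfold nn
      rw [← Nat.card_coe_set_eq, Nat.card_congr e]
    rw [h4, hNPR K D f G cl hI hf hG, (hGRP K D f G cl hI hf hG).1]
  · have hsub : {χ : RCC K | χ ∈ RQ K f ∧ (NVc χ ∨ ¬ NRe χ)} ⊆ RQ K f := fun χ h => h.1
    have h5 : Finite {χ : RCC K | χ ∈ RQ K f ∧ (NVc χ ∨ ¬ NRe χ)} :=
      (hfin.subset hsub).to_subtype
    have hcor : ∀ φ : {φ : G →* ℂˣ // Prim K f cl φ}, Cor f cl (e.symm φ).1 φ.1 := by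
      intro φ
      have h6 := he (e.symm φ)
      rw [e.apply_symm_apply] at h6
      exact h6
    have hmem : ∀ φ : {φ : G →* ℂˣ // Prim K f cl φ ∧ NVg K f cl φ},
        (e.symm ⟨φ.1, φ.2.1⟩).1 ∈ {χ : RCC K | χ ∈ RQ K f ∧ (NVc χ ∨ ¬ NRe χ)} := by
      intro φ
      have hm := (e.symm ⟨φ.1, φ.2.1⟩).2
      refine ⟨hm, ?_⟩
      by_cases hφ : φ.1 = 1
      · refine Or.inr ?_
        rintro ⟨I, hI0, hI1⟩
        by_cases hP : Pr K f I
        · have h7 := hcor ⟨φ.1, φ.2.1⟩ I hP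
          rw [h7] at hI1
          refine hI1 ?_
          show (((φ.1 (cl I) : ℂˣ) : ℂ)) ^ 2 = 1
          rw [hφ, MonoidHom.one_apply, Units.val_one, one_pow]
        · have h8 : (e.symm ⟨φ.1, φ.2.1⟩).1.ψ I = 0 := by
            by_cases hb : I = ⊥
            · rw [hb]
              exact (e.symm ⟨φ.1, φ.2.1⟩).1.map_bot
            · refine (e.symm ⟨φ.1, φ.2.1⟩).1.eq_zero I ?_
              rw [hm.2]
              exact fun h => hP ⟨hb, h⟩
          rw [h8] at hI0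
          exact hI0 (zero_pow two_ne_zero)
      · exact Or.inl (hNVR K D f G cl hI hF hf hG _ φ.1 hm.2 (hcor ⟨φ.1, φ.2.1⟩) φ.2.1 hφ φ.2.2)
    unfold ww
    rw [← Nat.card_coe_set_eq]
    refine Nat.card_le_card_of_injective
      (fun φ => (⟨(e.symm ⟨φ.1, φ.2.1⟩).1, hmem φ⟩ :
        {χ : RCC K | χ ∈ RQ K f ∧ (NVc χ ∨ ¬ NRe χ)})) ?_
    intro φ φ' h
    have h9 : (e.symm ⟨φ.1, φ.2.1⟩).1 = (e.symm ⟨φ'.1, φ'.2.1⟩).1 :=
      congrArg (fun z : {χ : RCC K | χ ∈ RQ K f ∧ (NVc χ ∨ ¬ NRe χ)} => z.1) h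
    have h10 := e.symm.injective (Subtype.ext h9)
    have h11 : φ.1 = φ'.1 :=
      congrArg (fun z : {φ : G →* ℂˣ // Prim K f cl φ} => z.1) h10
    exact Subtype.ext h11

end Pool.Agent.H36.CF
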